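import Pool.Agent.H87.EBK.Stmts2

/-!
# Row DIF of the board ebs
-/

set_option autoImplicit false

namespace Pool.EBK

theorem dif_id1 {a b c u w c' u' w' : ℚ} (hu : u ^ 2 = a ^ 2 + c ^ 2) (hw : w ^ 2 = b ^ 2 + c ^ 2)
    (hu' : u' ^ 2 = a ^ 2 + c' ^ 2) (hw' : w' ^ 2 = b ^ 2 + c' ^ 2) :
    ND a c u w c' u' w' ^ 2 + a ^ 2 * MD c u w c' u' w' ^ 2 =
      (u ^ 2 * u' ^ 2 - a ^ 4 + a ^ 2 * b ^ 2) ^ 2 := by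
  have key : c ^ 2 * c' ^ 2 * (u ^ 2 * u' ^ 2) + a ^ 4 * (w ^ 2 * w' ^ 2) +
      a ^ 2 * c' ^ 2 * (w' ^ 2 * u ^ 2) + a ^ 2 * c ^ 2 * (w ^ 2 * u' ^ 2) =
      (u ^ 2 * u' ^ 2 - a ^ 4 + a ^ 2 * b ^ 2) ^ 2 := by
    rw [hu, hw, hu', hw']
    ring
  unfold ND MD
  linear_combination key

theorem dif_id2 {a b c u w c' u' w' : ℚ} (hu : u ^ 2 = a ^ 2 + c ^ 2) (hw : w ^ 2 = b ^ 2 + c ^ 2)
    (hu' : u' ^ 2 = a ^ 2 + c' ^ 2) (hw' : w' ^ 2 = b ^ 2 + c' ^ 2) :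
    ND a c u w c' u' w' ^ 2 + b ^ 2 * MD c u w c' u' w' ^ 2 =
      (u * u' * w * w' + (a ^ 2 - b ^ 2) * c * c') ^ 2 := by
  have key : c ^ 2 * c' ^ 2 * (u ^ 2 * u' ^ 2) + a ^ 4 * (w ^ 2 * w' ^ 2) +
      b ^ 2 * c' ^ 2 * (w' ^ 2 * u ^ 2) + b ^ 2 * c ^ 2 * (w ^ 2 * u' ^ 2) =
      u ^ 2 * u' ^ 2 * (w ^ 2 * w' ^ 2) + (a ^ 2 - b ^ 2) ^ 2 * c ^ 2 * c' ^ 2 := by
    rw [hu, hw, hu', hw']
    ring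
  unfold ND MD
  linear_combination key

theorem dif_sq {N M K e : ℚ} (hM : M ≠ 0) (h : N ^ 2 + e ^ 2 * M ^ 2 = K ^ 2) :
    IsSquare (e ^ 2 + (N / |M|) ^ 2) := by
  refine ⟨K / M, ?_⟩
  have h1 : (N / |M|) ^ 2 = N ^ 2 / M ^ 2 := by rw [div_pow, sq_abs]
  rw [h1]
  field_simp
  linear_combination h

theorem dif : DIF := by
  intro a b c u w c' u' w' ha hb h h' hM
  obtain ⟨hc, hu0, hw0, hu, hw⟩ := h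
  obtain ⟨hc', hu0', hw0', hu', hw'⟩ := h'
  refine ⟨?_, dif_sq hM (dif_id1 hu hw hu' hw'), dif_sq hM (dif_id2 hu hw hu' hw')⟩
  refine div_pos ?_ (abs_pos.2 hM)
  unfold ND
  positivity

end Pool.EBK
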