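import Pool.Agent.H87.EBK.Stmts2

/-!
# Row PIG of the board ebs
-/

set_option autoImplicit false

namespace Pool.EBK

theorem pig : PIG := by
  intro g G ε hg hε
  have hb : ∀ n, ⌊g n / ε⌋₊ < ⌊G / ε⌋₊ + 1 := by
    intro n
    exact Nat.lt_succ_of_le (Nat.floor_le_floor ((div_le_div_iff_of_pos_right hε).2 (hg n).2))
  obtain ⟨n, m, hnm, hf⟩ := Finite.exists_ne_map_eq_of_infinite
    (fun n : ℕ => (⟨⌊g n / ε⌋₊, hb n⟩ : Fin (⌊G / ε⌋₊ + 1)))
  have hf' : ⌊g n / ε⌋₊ = ⌊g m / ε⌋₊ := congrArg Fin.val hf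
  have key : |g n - g m| < ε := by
    have a1 := Nat.floor_le (div_nonneg (hg n).1 hε.le)
    have a2 := Nat.lt_floor_add_one (g n / ε)
    have b1 := Nat.floor_le (div_nonneg (hg m).1 hε.le)
    have b2 := Nat.lt_floor_add_one (g m / ε)
    rw [hf'] at a1 a2
    rw [le_div_iff₀ hε] at a1 b1
    rw [div_lt_iff₀ hε] at a2 b2
    rw [abs_sub_lt_iff]
    constructor <;> linarith
  rcases lt_or_gt_of_ne hnm with h | h
  · exact ⟨n, m, h, key⟩
  · refine ⟨m, n, h, ?_⟩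
    rw [abs_sub_comm]
    exact key

end Pool.EBK
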