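import Pool.Agent.H87.EBK.Stmts2

/-!
# Row VAH of the board ebs
-/

set_option autoImplicit false

namespace Pool.EBK

theorem vah_mul {x y : ℚ} (hx : x ≠ 0) (hy : y ≠ 0) : v (x * y) = v x + v y :=
  padicValRat.mul hx hy

theorem vah (hT : TVL) : VAH := by
  intro a b c u w c' u' w' ha hb h h' hac hbc hca' hcb' hs hN
  obtain ⟨t1, t2, t3, t4⟩ := hT a b c u w ha hb h
  obtain ⟨s1, s2, s3, s4⟩ := hT a b c' u' w' ha hb h'
  obtain ⟨hc, hu0, hw0, -, -⟩ := h
  obtain ⟨hc', hu0', hw0', -, -⟩ := h'
  have vu := t2 hac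
  have vw := t4 hbc
  have vu' := s1 hca'
  have vw' := s3 hcb'
  have e1 : v (c * c' * u * u') = v c + v c' + v a + v c' := by
    rw [vah_mul (by positivity) hu0'.ne', vah_mul (by positivity) hu0.ne',
      vah_mul hc.ne' hc'.ne', vu, vu']
  have e2 : v (a ^ 2 * w * w') = v a + v a + v b + v c' := by
    rw [pow_two, vah_mul (by positivity) hw0'.ne', vah_mul (by positivity) hw0.ne',
      vah_mul ha.ne' ha.ne', vw, vw']
  have e3 : v (c' * w' * u) = v c' + v c' + v a := by
    rw [vah_mul (by positivity) hu0.ne', vah_mul hc'.ne' hw0'.ne', vu, vw']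
  have e4 : v (c * w * u') = v c + v b + v c' := by
    rw [vah_mul (by positivity) hu0'.ne', vah_mul hc.ne' hw0.ne', vw, vu']
  have hM : 0 < MU c u w c' u' w' := by
    unfold MU
    positivity
  have vN : v (NU a c u w c' u' w') = v c + v c' + v a + v c' := by
    have hne : c * c' * u * u' + -(a ^ 2 * w * w') ≠ 0 := by
      have := hN.ne'
      unfold NU at this
      rwa [sub_eq_add_neg] at this
    have h1 : v (-(a ^ 2 * w * w')) = v (a ^ 2 * w * w') := padicValRat.neg _
    have h2 : v (c * c' * u * u' + -(a ^ 2 * w * w')) = v (c * c' * u * u') := by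
      refine padicValRat.add_eq_of_lt hne (by positivity) (neg_ne_zero.2 (by positivity)) ?_
      show v (c * c' * u * u') < v (-(a ^ 2 * w * w'))
      rw [h1, e1, e2]
      linarith
    unfold NU
    rw [sub_eq_add_neg, h2, e1]
  have vM : v (MU c u w c' u' w') = v c' + v c' + v a := by
    have h2 : v (c' * w' * u + c * w * u') = v (c' * w' * u) := by
      refine padicValRat.add_eq_of_lt (by positivity) (by positivity) (by positivity) ?_
      show v (c' * w' * u) < v (c * w * u')
      rw [e3, e4]
      linarith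
    unfold MU
    rw [h2, e3]
  have h3 : v (NU a c u w c' u' w' / MU c u w c' u' w') =
      v (NU a c u w c' u' w') - v (MU c u w c' u' w') := padicValRat.div hN.ne' hM.ne'
  rw [h3, vN, vM]
  ring

end Pool.EBK
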